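import Pool.Agent.N329.SD.Stm

/-!
# Finite changes of generic sequences (helper505, project SD of helper329)
-/

set_option autoImplicit false

namespace Pool.Agent.N505.SD

open Pool.Agent.N329.SD

theorem dl_el (s : List ℕ) : dl (el s) = s := Denumerable.ofNat_encode s

theorem el_dl (n : ℕ) : el (dl n) = n := Denumerable.encode_ofNat n

theorem pre_prefix (x : ℕ → ℕ) (k : ℕ) : pre x k <+: pre x (k + 1) := by
  unfold pre
  rw [List.range_succ, List.map_append]
  exact List.prefix_append _ _

theorem length_pre (x : ℕ → ℕ) (k : ℕ) : (pre x k).length = k := by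
  unfold pre
  simp

theorem getElem_pre (x : ℕ → ℕ) (k i : ℕ) (h : i < (pre x k).length) : (pre x k)[i] = x i := by
  simp [pre]

theorem pre_set (x : ℕ → ℕ) (j v l : ℕ) : (pre x l).set j v = pre (Function.update x j v) l := by
  apply List.ext_getElem
  · simp [pre]
  · intro i h1 h2
    rw [List.getElem_set, getElem_pre, getElem_pre]
    by_cases h3 : j = i
    · rw [if_pos h3, ← h3, Function.update_self]
    · rw [if_neg h3, Function.update_of_ne (fun h => h3 h.symm)]

theorem prim_dl : Primrec dl := Primrec.ofNat (List ℕ)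

theorem prim_set (j v : ℕ) : Primrec (fun n : ℕ => el ((dl n).set j v)) := by
  have h1 : Primrec (fun n : ℕ => (dl n).set j v) :=
    (Primrec.list_set (α := ℕ)).comp prim_dl (Primrec.const (j, v))
  exact Primrec.encode.comp h1

theorem prim_len (j : ℕ) : PrimrecPred (fun n : ℕ => j < (dl n).length) :=
  Primrec.nat_lt.comp (Primrec.const j) (Primrec.list_length.comp prim_dl)

/-- **the leaf**: finite changes of generic sequences are generic -/
theorem t_UPD : Pool.Agent.N329.SD.S_UPD := by
  intro C hC x j v hx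
  refine ⟨fun k => ?_, fun Δ hΔ hd => ?_⟩
  · show dl (Nat.unpair (Nat.pair _ _)).1 <+: dl (Nat.unpair (Nat.pair _ _)).2
    rw [Nat.unpair_pair]
    simp only [Gx, dl_el]
    exact pre_prefix _ k
  · have hD1 : C ({n | j < (dl n).length} ∩ {n | el ((dl n).set j v) ∈ Δ}) :=
      hC.inter _ _ (hC.comp _ (prim_len j).computablePred) (hC.pre Δ _ hΔ (prim_set j v).to_comp)
    obtain ⟨l, hl1, hl2⟩ := hx.2 _ hD1 (by
      intro p
      obtain ⟨p', hp'⟩ : ∃ p' : List ℕ, p' = dl p ++ List.replicate (j + 1) 0 := ⟨_, rfl⟩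
      have hlen : j < p'.length := by
        rw [hp', List.length_append, List.length_replicate]; omega
      obtain ⟨q, hq1, hq2⟩ := hd (el (p'.set j v))
      have hq3 : dl (Nat.unpair (Nat.pair (el (p'.set j v)) q)).1 <+:
        dl (Nat.unpair (Nat.pair (el (p'.set j v)) q)).2 := hq2
      rw [Nat.unpair_pair] at hq3
      simp only [dl_el] at hq3
      obtain ⟨w, hw⟩ := hq3
      refine ⟨el (p' ++ w), ⟨?_, ?_⟩, ?_⟩
      · show j < (dl (el (p' ++ w))).length
        rw [dl_el, List.length_append]; omega
      · show el ((dl (el (p' ++ w))).set j v) ∈ Δ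
        rw [dl_el, List.set_append_left _ _ hlen, hw, el_dl]
        exact hq1
      · show dl (Nat.unpair (Nat.pair _ _)).1 <+: dl (Nat.unpair (Nat.pair _ _)).2
        rw [Nat.unpair_pair]
        simp only [dl_el]
        rw [hp', List.append_assoc]
        exact List.prefix_append _ _)
    refine ⟨l, ?_⟩
    have h3 : el ((dl (Gx x l)).set j v) ∈ Δ := hl2
    unfold Gx at h3 ⊢
    rw [dl_el, pre_set] at h3
    exact h3

end Pool.Agent.N505.SD
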